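import Pool.Agent.Helper40.SQU.TB

/-!
# Project SQ (MP_bb32d1_al), packet TFD
-/

set_option autoImplicit false

namespace Pool.Agent.Helper40.SQ

open Pool.Agent.Helper19.SQ Pool.Agent.Helper40.SQU Pool.Agent.Helper16.SQ

theorem s_tfd (hPBWS : S_PBWS) : S_TFD := by
  intro N l _ q hl0 hpar t hT s x
  have hl : 0 < l := by have := hpar.h3; omega
  refine pbw_ind hPBWS hpar (P := fun x => t (tor N l q hl0 s x) = t x)
    (by simp) (fun x y hx hy => by rw [map_add, map_add, map_add, hx, hy])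
    (fun c x hx => by rw [map_smul, map_smul, map_smul, hx])
    (fun a b κ ha hb => ?_) x
  rw [map_mul (tor N l q hl0 s), map_mul (tor N l q hl0 s), hc_tor_monE, hc_tor_monF, hc_tor_kmon, smul_mul_assoc, smul_mul_assoc,
    mul_smul_comm, map_smul, map_smul, t_mon hl hT a b (supp_of_ex ha) (supp_of_ex hb)]
  by_cases h : a = topE N l ∧ (∀ i, i ≤ N → l ∣ κ i) ∧ b = topE N l
  · rw [if_pos h, h.1, h.2.2, smul_smul, ← hc_tw_add, neg_add_cancel, hc_tw_zero, one_smul]
  · rw [if_neg h, smul_zero, smul_zero]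

end Pool.Agent.Helper40.SQ
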