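import Pool.Agent.Helper40.SQU.TC

/-!
# Project SQ (MP_bb32d1_al), packet TFF
-/

set_option autoImplicit false

namespace Pool.Agent.Helper40.SQ

open Pool.Agent.Helper19.SQ Pool.Agent.Helper40.SQU Pool.Agent.Helper28.SQ

theorem s_tff (hPBWS : S_PBWS) (hLM : S_LM) (hRM : S_RM) (hSPAN : S_SPAN) (hMONW : S_MONW)
    (hHTOP : S_HTOP) : S_TFF := by
  intro N l _ q hpar t hT k x
  have hl : 0 < l := by have := hpar.h3; omega
  have hl2 : 2 ≤ l := by have := hpar.h3; omega
  obtain ⟨hq, hq1, hq2⟩ := Pool.Agent.Helper96.SQ.ZB.par_facts hpar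
  by_cases hk : k < N
  swap
  · rw [(glA N l q).F_out k (by omega), zero_mul, mul_zero]
  refine pbw_ind hPBWS hpar (P := fun x => t (gF N l q k * x) = t (x * gF N l q k))
    (by simp) (fun x y hx hy => by rw [mul_add, add_mul, map_add, map_add, hx, hy])
    (fun c x hx => by rw [mul_smul_comm, smul_mul_assoc, map_smul, map_smul, hx])
    (fun a b κ ha hb => ?_) x
  have sa := supp_of_ex ha
  have sb := supp_of_ex hb
  classical
  -- left side
  have hL : t (gF N l q k * (mon N q (gF N l q) a * kmon N (gK N l q) κ * mon N q (gE N l q) b))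
      = if inc a k (k + 1) = topE N l ∧ (∀ j, j ≤ N → l ∣ κ j) ∧ b = topE N l then 1 else 0 := by
    rw [← mul_assoc, ← mul_assoc, hLM (A N l q) N q (gF N l q) hq hq1 hq2 (glA N l q).sF a k hk,
      add_mul, add_mul, Finset.sum_mul, Finset.sum_mul, map_add, map_sum, Finset.sum_eq_zero,
      zero_add, smul_mul_assoc, smul_mul_assoc,
      map_smul, t_mon hl hT _ b (sa.inc (by omega) (by omega)) sb]
    · by_cases h : inc a k (k + 1) = topE N l ∧ (∀ j, j ≤ N → l ∣ κ j) ∧ b = topE N l
      · rw [if_pos h, wL_one a k hk h.1, one_smul]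
      · rw [if_neg h, smul_zero]
    · intro i hi
      have hi' := Finset.mem_range.1 hi
      rw [smul_mul_assoc, smul_mul_assoc, map_smul, t_mon hl hT _ b (sa.mvr hi' hk) sb, if_neg,
        smul_zero]
      rintro ⟨h, _, _⟩
      exact mvr_ne hl2 a ha i k hi' hk h
  -- right side
  have hF : kmon N (gK N l q) κ * gF N l q k
      = (((List.range (N + 1)).map fun j => (q ^ pr j k) ^ κ j).prod)⁻¹
        • (gF N l q k * kmon N (gK N l q) κ) := by
    have h1 := kp_smul (gF N l q k) (gK N l q) (fun j => q ^ pr j k) (fun j => F_K hq k j)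
      (N + 1) κ
    rw [← kmon_eq] at h1
    rw [h1, smul_smul, inv_mul_cancel₀, one_smul]
    apply List.prod_ne_zero
    rw [List.mem_map]
    rintro ⟨j, _, h⟩
    exact pow_ne_zero _ (zpow_ne_zero _ hq) h
  have hlow := t_low_right hSPAN hpar hT k hk (ht N b) (hHTOP N l b hb).1 _
    (monE_F hMONW hq k b sb) κ a ha
  have hR : t (mon N q (gF N l q) a * kmon N (gK N l q) κ * mon N q (gE N l q) b * gF N l q k)
      = if inc a k (k + 1) = topE N l ∧ (∀ j, j ≤ N → l ∣ κ j) ∧ b = topE N l then 1 else 0 := by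
    have e : mon N q (gF N l q) a * kmon N (gK N l q) κ * mon N q (gE N l q) b * gF N l q k
        = mon N q (gF N l q) a * kmon N (gK N l q) κ *
            (mon N q (gE N l q) b * gF N l q k - gF N l q k * mon N q (gE N l q) b)
          + mon N q (gF N l q) a * (kmon N (gK N l q) κ * gF N l q k) * mon N q (gE N l q) b := by
      noncomm_ring
    rw [e, map_add, hlow, zero_add, hF, mul_smul_comm, smul_mul_assoc, map_smul]
    have e2 : mon N q (gF N l q) a * (gF N l q k * kmon N (gK N l q) κ) * mon N q (gE N l q) b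
        = mon N q (gF N l q) a * gF N l q k * kmon N (gK N l q) κ * mon N q (gE N l q) b := by
      noncomm_ring
    rw [e2, hRM (A N l q) N q (gF N l q) hq hq1 hq2 (glA N l q).sF a k hk,
      add_mul, add_mul, Finset.sum_mul, Finset.sum_mul, map_add, map_sum, Finset.sum_eq_zero,
      zero_add, smul_mul_assoc, smul_mul_assoc,
      map_smul, t_mon hl hT _ b (sa.inc (by omega) (by omega)) sb]
    · by_cases h : inc a k (k + 1) = topE N l ∧ (∀ j, j ≤ N → l ∣ κ j) ∧ b = topE N l
      · rw [if_pos h, wR_one a k hk h.1, one_smul, scal_one _ _ κ h.2.1, inv_one, one_smul]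
        intro j
        rw [← zpow_natCast, ← zpow_mul, mul_comm, zpow_mul, zpow_natCast,
          hpar.prim.pow_eq_one, one_zpow]
      · rw [if_neg h, smul_zero, smul_zero]
    · intro j hj
      obtain ⟨hj1, hj2⟩ := Finset.mem_Ioc.1 hj
      rw [smul_mul_assoc, smul_mul_assoc, map_smul, t_mon hl hT _ b (supp_mvc sa hj1 hj2) sb,
        if_neg, smul_zero]
      rintro ⟨h, _, _⟩
      exact mvc_ne hl2 a ha k j hj1 hj2 h
  rw [hL, hR]

end Pool.Agent.Helper40.SQ
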