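import Pool.Agent.Helper40.SQU.TB

/-!
# Project SQ (MP_bb32d1_al), packet TFK
-/

set_option autoImplicit false

namespace Pool.Agent.Helper40.SQ

open Pool.Agent.Helper19.SQ Pool.Agent.Helper40.SQU

theorem s_tfk (hPBWS : S_PBWS) : S_TFK := by
  intro N l _ q hpar t hT j x
  have hl : 0 < l := by have := hpar.h3; omega
  obtain ⟨hq, _, _⟩ := Pool.Agent.Helper96.SQ.ZB.par_facts hpar
  by_cases hj : N < j
  · rw [(glA N l q).K_out j hj, one_mul, mul_one]
  have hjn : j < N + 1 := by omega
  refine pbw_ind hPBWS hpar (P := fun x => t (gK N l q j * x) = t (x * gK N l q j))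
    (by simp) (fun x y hx hy => by rw [mul_add, add_mul, map_add, map_add, hx, hy])
    (fun c x hx => by rw [mul_smul_comm, smul_mul_assoc, map_smul, map_smul, hx])
    (fun a b κ ha hb => ?_) x
  have hs : ∀ i, (q ^ pr j i) ≠ 0 := fun i => zpow_ne_zero _ hq
  have hF := mon_comm N q (gK N l q j) (gF N l q) (fun i => (q ^ pr j i)⁻¹)
    (fun i => by rw [(glA N l q).KF, zpow_neg]) a
  have hE := mon_comm N q (gK N l q j) (gE N l q) (fun i => q ^ pr j i)
    (fun i => (glA N l q).KE j i) b
  rw [cw_inv] at hF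
  have hne := cw_ne N (fun i => q ^ pr j i) hs b
  have hE' : mon N q (gE N l q) b * gK N l q j
      = (cw N (fun i => q ^ pr j i) b)⁻¹ • (gK N l q j * mon N q (gE N l q) b) := by
    rw [hE, smul_smul, inv_mul_cancel₀ hne, one_smul]
  have hK1 : gK N l q j * kmon N (gK N l q) κ
      = kmon N (gK N l q) (fun i => κ i + if i = j then 1 else 0) := by
    rw [kmon_eq, kmon_eq, ← kp_mul _ (glA N l q).K_comm, kp_single _ _ _ _ hjn, pow_one,
      (kp_comm _ (glA N l q).K_comm _ _ _).eq]
  have hK2 : kmon N (gK N l q) κ * gK N l q j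
      = kmon N (gK N l q) (fun i => κ i + if i = j then 1 else 0) := by
    rw [← hK1, kmon_eq, (kp_comm _ (glA N l q).K_comm _ _ _).eq]
  have e1 : gK N l q j * (mon N q (gF N l q) a * kmon N (gK N l q) κ * mon N q (gE N l q) b)
      = (cw N (fun i => q ^ pr j i) a)⁻¹ • (mon N q (gF N l q) a *
        kmon N (gK N l q) (fun i => κ i + if i = j then 1 else 0) * mon N q (gE N l q) b) := by
    rw [← mul_assoc, ← mul_assoc, hF, smul_mul_assoc, smul_mul_assoc, mul_assoc _ (gK N l q j),
      hK1]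
  have e2 : mon N q (gF N l q) a * kmon N (gK N l q) κ * mon N q (gE N l q) b * gK N l q j
      = (cw N (fun i => q ^ pr j i) b)⁻¹ • (mon N q (gF N l q) a *
        kmon N (gK N l q) (fun i => κ i + if i = j then 1 else 0) * mon N q (gE N l q) b) := by
    rw [mul_assoc _ _ (gK N l q j), hE', mul_smul_comm, ← mul_assoc, mul_assoc _ _ (gK N l q j),
      hK2]
  rw [e1, e2, map_smul, map_smul, t_mon hl hT a b (supp_of_ex ha) (supp_of_ex hb)]
  by_cases h : a = topE N l ∧ (∀ i, i ≤ N → l ∣ (κ i + if i = j then 1 else 0)) ∧ b = topE N l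
  · rw [if_pos h, h.1, h.2.2]
  · rw [if_neg h, smul_zero, smul_zero]

end Pool.Agent.Helper40.SQ
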