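import Pool.Agent.Helper19.SQ.GoalsC
import Pool.Agent.Helper34.SQ.Eqd

/-!
# Project SQ (MP_bb32d1_al): packet SQ-FCN, the count
-/

set_option autoImplicit false

namespace Pool.Agent.Helper40.SQ

open Pool.Agent.Helper19.SQ MvPolynomial Module

noncomputable section

/-! ### The action on the diagonal coinvariants -/

theorem rn_mul {n : ℕ} (σ τ : Equiv.Perm (Fin n)) (P : Pn n) : rn (σ * τ) P = rn σ (rn τ P) := by
  unfold rn
  rw [rename_rename]
  congr 2
  funext i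
  rcases i with i | i <;> rfl

theorem rn_one {n : ℕ} (P : Pn n) : rn (1 : Equiv.Perm (Fin n)) P = P := by
  unfold rn
  have : Sum.map (⇑(1 : Equiv.Perm (Fin n))) (⇑(1 : Equiv.Perm (Fin n))) = id := by
    funext i
    rcases i with i | i <;> rfl
  rw [this, rename_id_apply]

theorem rq_mk {n : ℕ} (σ : Equiv.Perm (Fin n)) (P : Pn n) :
    rq σ (Ideal.Quotient.mk (dIdeal n) P) = Ideal.Quotient.mk (dIdeal n) (rn σ P) := rfl

/-- The representation of the symmetric group on `DR n`. -/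
def rho (n : ℕ) : Equiv.Perm (Fin n) →* (DR n →ₗ[ℂ] DR n) where
  toFun σ := (rq σ).toLinearMap
  map_one' := by
    apply LinearMap.ext
    intro p
    obtain ⟨P, rfl⟩ := Ideal.Quotient.mk_surjective p
    change rq 1 (Ideal.Quotient.mk (dIdeal n) P) = _
    rw [rq_mk, rn_one]
    rfl
  map_mul' σ τ := by
    apply LinearMap.ext
    intro p
    obtain ⟨P, rfl⟩ := Ideal.Quotient.mk_surjective p
    change rq (σ * τ) (Ideal.Quotient.mk (dIdeal n) P) =
      rq σ (rq τ (Ideal.Quotient.mk (dIdeal n) P))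
    rw [rq_mk, rq_mk, rq_mk, rn_mul]

theorem rho_apply {n : ℕ} (σ : Equiv.Perm (Fin n)) (p : DR n) : rho n σ p = rq σ p := rfl

theorem rn_sh {n : ℕ} (σ : Equiv.Perm (Fin n)) (P : Pn n) : rn σ (sh n P) = sh n (rn σ P) := by
  have h : (rn σ).comp (sh n) = (sh n).comp (rn σ) := by
    apply MvPolynomial.algHom_ext
    intro i
    rcases i with i | i
    · simp [rn, sh]
    · simp [rn, sh]
  exact DFunLike.congr_fun h P

theorem sh_surj (n : ℕ) : Function.Surjective (sh n) := by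
  intro P
  refine ⟨aeval (Sum.elim (fun k => X (Sum.inl k)) fun k => X (Sum.inr k) + 1 :
    (Fin n ⊕ Fin n) → Pn n) P, ?_⟩
  have h : (sh n).comp (aeval (Sum.elim (fun k => X (Sum.inl k)) fun k => X (Sum.inr k) + 1 :
      (Fin n ⊕ Fin n) → Pn n)) = AlgHom.id ℂ (Pn n) := by
    apply MvPolynomial.algHom_ext
    intro i
    rcases i with i | i
    · simp [sh]
    · simp [sh]
  exact DFunLike.congr_fun h P

/-! ### Types -/

theorem ty_comp {l n : ℕ} (x : Fin n → ZMod l) (σ : Equiv.Perm (Fin n)) :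
    tyc (x ∘ σ) = tyc x := by
  unfold tyc
  exact Equiv.sum_comp σ (fun k => sg (x k))

theorem exists_ty {l n : ℕ} [NeZero l] (m : ZMod l → ℤ) (hm : IsTy n m) :
    ∃ x : Fin n → ZMod l, tyc x = m := by
  classical
  have hcard : Fintype.card (Σ c : ZMod l, Fin (m c).toNat) = n := by
    rw [Fintype.card_sigma]
    simp only [Fintype.card_fin]
    have h : ((∑ c, (m c).toNat : ℕ) : ℤ) = n := by
      push_cast
      rw [← hm.2]
      exact Finset.sum_congr rfl fun c _ => Int.toNat_of_nonneg (hm.1 c)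
    exact_mod_cast h
  let e : Fin n ≃ (Σ c : ZMod l, Fin (m c).toNat) :=
    (Fin.castOrderIso hcard.symm).toEquiv.trans (Fintype.equivFin _).symm
  refine ⟨fun k => (e k).1, ?_⟩
  funext c
  unfold tyc
  rw [Finset.sum_apply]
  have h1 : ∀ k, sg (e k).1 c = if c = (e k).1 then (1 : ℤ) else 0 := fun k => rfl
  rw [Finset.sum_congr rfl fun k _ => h1 k,
    Equiv.sum_comp e (fun p : (Σ c : ZMod l, Fin (m c).toNat) => if c = p.1 then (1 : ℤ) else 0),
    Fintype.sum_sigma]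
  rw [Finset.sum_eq_single c]
  · simp [hm.1 c]
  · intro b _ hb
    simp [Ne.symm hb]
  · simp

/-! ### Two free sites -/

theorem exists_two {l n : ℕ} [NeZero l] (hn : n + 2 ≤ l) (x : Fin n → ZMod l) :
    ∃ p : ZMod l × ZMod l, p.1 ≠ p.2 ∧ p.1 ∉ Set.range x ∧ p.2 ∉ Set.range x := by
  classical
  have h1 : (Finset.univ.image x).card ≤ n := by
    refine Finset.card_image_le.trans ?_
    simp
  have h2 : 1 < (Finset.univ.image x)ᶜ.card := by
    rw [Finset.card_compl, ZMod.card]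
    omega
  obtain ⟨a, ha, b, hb, hab⟩ := Finset.one_lt_card.1 h2
  refine ⟨(a, b), hab, ?_, ?_⟩
  · rintro ⟨k, hk⟩
    exact (Finset.mem_compl.1 ha) (Finset.mem_image.2 ⟨k, Finset.mem_univ _, hk⟩)
  · rintro ⟨k, hk⟩
    exact (Finset.mem_compl.1 hb) (Finset.mem_image.2 ⟨k, Finset.mem_univ _, hk⟩)

open Classical in
/-- Two different sites outside of `S`. -/
def dd {l : ℕ} [NeZero l] (S : Set (ZMod l)) : ZMod l × ZMod l :=
  if h : ∃ p : ZMod l × ZMod l, p.1 ≠ p.2 ∧ p.1 ∉ S ∧ p.2 ∉ S then h.choose else (0, 0)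

theorem dd_spec {l n : ℕ} [NeZero l] (hn : n + 2 ≤ l) (x : Fin n → ZMod l) :
    (dd (Set.range x)).1 ≠ (dd (Set.range x)).2 ∧
      ∀ k, x k ≠ (dd (Set.range x)).1 ∧ x k ≠ (dd (Set.range x)).2 := by
  have h := exists_two hn x
  have h1 : dd (Set.range x) = h.choose := by
    unfold dd
    rw [dif_pos h]
  have h2 := h.choose_spec
  rw [← h1] at h2
  exact ⟨h2.1, fun k => ⟨fun hk => h2.2.1 ⟨k, hk⟩, fun hk => h2.2.2 ⟨k, hk⟩⟩⟩

/-! ### The functionals -/

section fn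

variable {l n : ℕ} [NeZero l] {T : Type} [AddCommGroup T] [Module ℂ T] (C : Cnt l n T)
  (lam : ZMod l → T →ₗ[ℂ] ℂ) (s : DR n →ₗ[ℂ] Pn n)

/-- The functional on `DR n` given by `τ` and `x`. -/
def Phi : T →ₗ[ℂ] ((Fin n → ZMod l) → DR n →ₗ[ℂ] ℂ) :=
  LinearMap.pi fun x => (LinearMap.lcomp ℂ ℂ ((sh n).toLinearMap ∘ₗ s)) ∘ₗ
    phi C (dd (Set.range x)).1 x (lam (dd (Set.range x)).1)

theorem Phi_apply (τ : T) (x : Fin n → ZMod l) (p : DR n) :
    Phi C lam s τ x p =
      phi C (dd (Set.range x)).1 x (lam (dd (Set.range x)).1) τ (sh n (s p)) := rfl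

theorem Phi_mk (hK : S_KIL) (hl : 3 ≤ l) (hn : n + 2 ≤ l)
    (hs : ∀ p, Ideal.Quotient.mk (dIdeal n) (s p) = p)
    (x : Fin n → ZMod l) (τ : T) (hτ : τ ∈ C.gr (tyc x)) (P : Pn n) :
    Phi C lam s τ x (Ideal.Quotient.mk (dIdeal n) P) =
      phi C (dd (Set.range x)).1 x (lam (dd (Set.range x)).1) τ (sh n P) := by
  rw [Phi_apply, ← sub_eq_zero, ← map_sub, ← map_sub]
  refine hK l n T C hl _ _ (dd_spec hn x).1 x (dd_spec hn x).2 _ τ hτ _ ?_
  rw [← Ideal.Quotient.eq_zero_iff_mem, map_sub, hs, sub_self]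

theorem Phi_inj (hI : S_INJ) (hK : S_KIL) (hl : 3 ≤ l) (hn : n + 2 ≤ l)
    (hs : ∀ p, Ideal.Quotient.mk (dIdeal n) (s p) = p)
    (hlam : ∀ d, lam d (C.ch (nd n d)) ≠ 0)
    (x : Fin n → ZMod l) (τ : T) (hτ : τ ∈ C.gr (tyc x)) (h0 : Phi C lam s τ x = 0) : τ = 0 := by
  refine hI l n T C hl _ x (fun k => ((dd_spec hn x).2 k).1) _ (hlam _) τ hτ ?_
  apply LinearMap.ext
  intro Q
  obtain ⟨P, rfl⟩ := sh_surj n Q
  rw [← Phi_mk C lam s hK hl hn hs x τ hτ P, h0]
  rfl

theorem Phi_eqv (hE : S_EQV) (hK : S_KIL) (hl : 3 ≤ l) (hn : n + 2 ≤ l)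
    (hs : ∀ p, Ideal.Quotient.mk (dIdeal n) (s p) = p)
    (x : Fin n → ZMod l) (τ : T) (hτ : τ ∈ C.gr (tyc x)) (σ : Equiv.Perm (Fin n)) (p : DR n) :
    Phi C lam s τ (x ∘ σ) p = Phi C lam s τ x (rq σ p) := by
  obtain ⟨P, rfl⟩ := Ideal.Quotient.mk_surjective p
  rw [rq_mk, Phi_mk C lam s hK hl hn hs x τ hτ,
    Phi_mk C lam s hK hl hn hs (x ∘ σ) τ (by rw [ty_comp]; exact hτ)]
  have hr : Set.range (x ∘ σ) = Set.range x := by
    rw [Set.range_comp, σ.surjective.range_eq, Set.image_univ]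
  rw [hr, hE l n T C _ x (fun k => ((dd_spec hn x).2 k).1), rn_sh]

end fn

/-- The permutations which fix `x`. -/
def stab {n l : ℕ} (x : Fin n → ZMod l) : Subgroup (Equiv.Perm (Fin n)) where
  carrier := {σ | x ∘ σ = x}
  one_mem' := rfl
  mul_mem' := by
    intro a b ha hb
    change x ∘ (a * b) = x
    rw [Equiv.Perm.coe_mul, ← Function.comp_assoc, (ha : x ∘ a = x), (hb : x ∘ b = x)]
  inv_mem' := by
    intro a ha
    change x ∘ (a⁻¹ : Equiv.Perm (Fin n)) = x
    conv_lhs => rw [← (ha : x ∘ a = x)]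
    rw [Function.comp_assoc]
    have : (⇑a ∘ ⇑a⁻¹ : Fin n → Fin n) = id := by
      funext k
      simp
    rw [this, Function.comp_id]

/-- The action of the permutations on the sites. -/
@[reducible] def act (n l : ℕ) : MulAction (Equiv.Perm (Fin n)) (Fin n → ZMod l) where
  smul g x := x ∘ (g⁻¹ : Equiv.Perm (Fin n))
  one_smul x := by
    change x ∘ ((1 : Equiv.Perm (Fin n))⁻¹ : Equiv.Perm (Fin n)) = x
    rw [inv_one]
    rfl
  mul_smul g h x := by
    change x ∘ ((g * h)⁻¹ : Equiv.Perm (Fin n)) =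
      (x ∘ (h⁻¹ : Equiv.Perm (Fin n))) ∘ (g⁻¹ : Equiv.Perm (Fin n))
    rw [mul_inv_rev]
    rfl

/-- The trivial action on one point. -/
@[reducible] def actU (G : Type) [Group G] : MulAction G Unit where
  smul _ x := x
  one_smul _ := rfl
  mul_smul _ _ _ := rfl

/-- The linear section of the quotient map. -/
theorem exists_sec (n : ℕ) : ∃ s : DR n →ₗ[ℂ] Pn n, ∀ p, Ideal.Quotient.mk (dIdeal n) (s p) = p := by
  obtain ⟨s, hs⟩ := LinearMap.exists_rightInverse_of_surjective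
    (Ideal.Quotient.mkₐ ℂ (dIdeal n)).toLinearMap
    (LinearMap.range_eq_top.2 Ideal.Quotient.mk_surjective)
  exact ⟨s, fun p => DFunLike.congr_fun hs p⟩

/-- The functionals `lam`. -/
theorem exists_lam {l n : ℕ} [NeZero l] {T : Type} [AddCommGroup T] [Module ℂ T]
    (C : Cnt l n T) : ∃ lam : ZMod l → T →ₗ[ℂ] ℂ, ∀ d, lam d (C.ch (nd n d)) ≠ 0 := by
  have h : ∀ d, ∃ f : T →ₗ[ℂ] ℂ, f (C.ch (nd n d)) ≠ 0 := by
    intro d
    by_contra hneg
    push Not at hneg
    exact C.ch_ne d ((Module.forall_dual_apply_eq_zero_iff ℂ _).1 hneg)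
  choose lam hlam using h
  exact ⟨lam, hlam⟩

/-- Packet SQ-FCN. -/
theorem s_fcn (hI : S_INJ) (hE : S_EQV) (hK : S_KIL) (hF : S_FIN) : S_FCN := by
  classical
  intro l n _ T _ _ C hl hn
  have := C.fd
  have := hF n
  obtain ⟨s, hs⟩ := exists_sec n
  obtain ⟨lam, hlam⟩ := exists_lam C
  refine ⟨fun x => ?_, ?_⟩
  · -- the block
    letI := actU (stab x)
    let ρ : stab x →* (DR n →ₗ[ℂ] DR n) := (rho n).comp (stab x).subtype
    let Φ : C.gr (tyc x) →ₗ[ℂ] (Unit → DR n →ₗ[ℂ] ℂ) :=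
      LinearMap.pi fun _ => (LinearMap.proj x) ∘ₗ Phi C lam s ∘ₗ (C.gr (tyc x)).subtype
    have hΦ : ∀ u v, Φ u v = Phi C lam s u.1 x := fun u v => rfl
    have hinj : Function.Injective Φ := by
      rw [injective_iff_map_eq_zero]
      intro u hu
      apply Subtype.ext
      refine Phi_inj C lam s hI hK hl hn hs hlam x u.1 u.2 ?_
      rw [← hΦ u (), hu]
      rfl
    have heq : ∀ (u : C.gr (tyc x)) (g : stab x) (y : Unit) (v : DR n),
        Φ u (g • y) (ρ g v) = Φ u y v := by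
      intro u g y v
      rw [hΦ]
      have h1 := Phi_eqv C lam s hE hK hl hn hs x u.1 u.2 g.1 v
      rw [(g.2 : x ∘ g.1 = x)] at h1
      rw [h1]
      rfl
    refine (Pool.Agent.Helper34.SQ.finrank_le_EqMaps ρ Φ hinj heq).trans ?_
    let j : Pool.Agent.Helper34.SQ.EqMaps ρ Unit →ₗ[ℂ] DRfix (l := l) x :=
      { toFun := fun f => ⟨f.1 (), fun σ hσ => (f.2 ⟨σ, hσ⟩ ()).symm⟩
        map_add' := fun f g => rfl
        map_smul' := fun c f => rfl }
    refine LinearMap.finrank_le_finrank_of_injective (f := j) ?_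
    intro f g hfg
    apply Subtype.ext
    funext y
    exact congrArg Subtype.val hfg
  · -- the total
    letI := act n l
    let I := Set.range (tyc : (Fin n → ZMod l) → ZMod l → ℤ)
    have : Finite I := Set.finite_range _
    have := Fintype.ofFinite I
    let U := (i : I) → C.gr i.1
    -- the sum
    let S : U →ₗ[ℂ] T := ∑ i : I, (C.gr i.1).subtype ∘ₗ LinearMap.proj i
    have hS : Function.Surjective S := by
      rw [← LinearMap.range_eq_top, eq_top_iff, ← C.top]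
      refine iSup_le fun m => ?_
      by_cases hm : IsTy n m
      · obtain ⟨x, hx⟩ := exists_ty m hm
        intro τ hτ
        have hmI : m ∈ I := ⟨x, hx⟩
        refine ⟨Pi.single (⟨m, hmI⟩ : I) (⟨τ, hτ⟩ : C.gr m), ?_⟩
        have hSa : ∀ u : U, S u = ∑ i : I, (u i).1 := by
          intro u
          simp only [S, LinearMap.sum_apply]
          rfl
        rw [hSa, Finset.sum_eq_single (⟨m, hmI⟩ : I)]
        · rw [Pi.single_eq_same]
        · intro i _ hi
          rw [Pi.single_eq_of_ne hi]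
          rfl
        · intro h
          exact absurd (Finset.mem_univ _) h
      · rw [C.bot m hm]
        exact bot_le
    have h1 : finrank ℂ T ≤ finrank ℂ U := LinearMap.finrank_le_finrank_of_surjective hS
    refine h1.trans ?_
    let Φ : U →ₗ[ℂ] ((Fin n → ZMod l) → DR n →ₗ[ℂ] ℂ) :=
      LinearMap.pi fun x => (LinearMap.proj x) ∘ₗ Phi C lam s ∘ₗ (C.gr (tyc x)).subtype ∘ₗ
        (LinearMap.proj (⟨tyc x, ⟨x, rfl⟩⟩ : I) : U →ₗ[ℂ] C.gr (tyc x))
    have hΦ : ∀ u x, Φ u x = Phi C lam s (u ⟨tyc x, ⟨x, rfl⟩⟩).1 x := fun u x => rfl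
    have hinj : Function.Injective Φ := by
      rw [injective_iff_map_eq_zero]
      intro u hu
      funext i
      obtain ⟨m, x, rfl⟩ := i
      apply Subtype.ext
      refine Phi_inj C lam s hI hK hl hn hs hlam x _ (u ⟨tyc x, ⟨x, rfl⟩⟩).2 ?_
      rw [← hΦ u x, hu]
      rfl
    have heq : ∀ (u : U) (g : Equiv.Perm (Fin n)) (x : Fin n → ZMod l) (v : DR n),
        Φ u (g • x) (rho n g v) = Φ u x v := by
      intro u g x v
      rw [hΦ, hΦ]
      have e1 : (⟨tyc (g • x), ⟨g • x, rfl⟩⟩ : I) = ⟨tyc x, ⟨x, rfl⟩⟩ :=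
        Subtype.ext (ty_comp x g⁻¹)
      have e2 : (u ⟨tyc (g • x), ⟨g • x, rfl⟩⟩).1 = (u ⟨tyc x, ⟨x, rfl⟩⟩).1 := by
        rw [e1]
      rw [e2]
      have h2 := Phi_eqv C lam s hE hK hl hn hs x _ (u ⟨tyc x, ⟨x, rfl⟩⟩).2 g⁻¹ (rho n g v)
      change Phi C lam s (u ⟨tyc x, ⟨x, rfl⟩⟩).1 (x ∘ (g⁻¹ : Equiv.Perm (Fin n))) (rho n g v) = _
      rw [h2, ← rho_apply, ← Module.End.mul_apply, ← map_mul, inv_mul_cancel, map_one]
      rfl
    refine (Pool.Agent.Helper34.SQ.finrank_le_EqMaps (rho n) Φ hinj heq).trans ?_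
    let j : Pool.Agent.Helper34.SQ.EqMaps (rho n) (Fin n → ZMod l) →ₗ[ℂ] DRmaps n l :=
      { toFun := fun f => ⟨f.1, fun σ x => by
          have h2 := f.2 σ (x ∘ σ)
          have h3 : σ • (x ∘ σ) = x := by
            change (x ∘ σ) ∘ (σ⁻¹ : Equiv.Perm (Fin n)) = x
            rw [Function.comp_assoc]
            have : (⇑σ ∘ ⇑σ⁻¹ : Fin n → Fin n) = id := by
              funext k
              simp
            rw [this, Function.comp_id]
          rw [h3] at h2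
          exact h2.symm⟩
        map_add' := fun f g => rfl
        map_smul' := fun c f => rfl }
    refine LinearMap.finrank_le_finrank_of_injective (f := j) ?_
    intro f g hfg
    apply Subtype.ext
    have h4 : (j f).1 = (j g).1 := congrArg Subtype.val hfg
    exact h4

end

end Pool.Agent.Helper40.SQ
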