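import Pool.Agent.Helper39.SQ.Goals
import Pool.Agent.Helper26.SN.EXPA

/-!
# Packet SQ-EXPA (MP_9b2a83_an)
-/

set_option autoImplicit false

namespace Pool.Agent.Helper40.SQ.EXPA

open Pool.Agent.Helper71.SN Pool.Agent.Helper39.Net Pool.Agent.Helper39.SQ
  Pool.Agent.Helper71.SN.PkEXPA

theorem cell_card' (h2 : Pool.Agent.Helper71.SN.G_CNT2) {d D N : ℕ} {σ : Fin d → ℕ}
    (hσD : ∀ c, σ c < D) (hσ : ∑ c, σ c = N) (s : Fin d → Fin (2 ^ D))
    {i1 : DecidablePred fun z : Fin d → Fin (2 ^ D) => ∀ c, σ c ≤ agr 2 D (s c) (z c)} :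
    (Finset.univ.filter fun z : Fin d → Fin (2 ^ D) =>
      ∀ c, σ c ≤ agr 2 D (s c) (z c)).card = 2 ^ (D * d - N) := by
  classical
  have h : (Finset.univ.filter fun z : Fin d → Fin (2 ^ D) =>
      ∀ c, σ c ≤ agr 2 D (s c) (z c)) =
      Fintype.piFinset fun c => Finset.univ.filter fun t : Fin (2 ^ D) =>
        σ c ≤ agr 2 D (s c) t := by
    ext z
    simp [Fintype.mem_piFinset]
  rw [h, Fintype.card_piFinset]
  have h3 : ∀ c, (Finset.univ.filter fun t : Fin (2 ^ D) =>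
        σ c ≤ agr 2 D (s c) t).card = 2 ^ (D - σ c) := by
    intro c
    refine (card_filter_fin (2 ^ D) (fun t => σ c ≤ agr 2 D (s c) t)).trans ?_
    exact h2 2 D (σ c) (s c) (by norm_num) (hσD c).le (s c).2
  rw [Finset.prod_congr rfl fun c _ => h3 c, Finset.prod_pow_eq_pow_sum]
  congr 1
  have h4 : ∑ c : Fin d, (D - σ c) + ∑ c, σ c = D * d := by
    rw [← Finset.sum_add_distrib]
    rw [Finset.sum_congr rfl fun c _ => Nat.sub_add_cancel (hσD c).le]
    simp [mul_comm]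
  omega

theorem pairs_card' (h1 : Pool.Agent.Helper71.SN.G_CNT1) {d D N : ℕ} (hD : 1 ≤ D)
    {σ : Fin d → ℕ} (hσD : ∀ c, σ c < D) (hσ : ∑ c, σ c = N)
    {i1 : DecidablePred fun q : (Fin d → Fin (2 ^ D)) × (Fin d → Fin (2 ^ D)) =>
      ∀ c, (q.1 c).val < (q.2 c).val ∧ agr 2 D (q.1 c) (q.2 c) = σ c} :
    4 ^ d * 2 ^ N * (Finset.univ.filter
      fun q : (Fin d → Fin (2 ^ D)) × (Fin d → Fin (2 ^ D)) =>
        ∀ c, (q.1 c).val < (q.2 c).val ∧ agr 2 D (q.1 c) (q.2 c) = σ c).card =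
      2 ^ (2 * D * d) := by
  classical
  have h : (Finset.univ.filter
      fun q : (Fin d → Fin (2 ^ D)) × (Fin d → Fin (2 ^ D)) =>
        ∀ c, (q.1 c).val < (q.2 c).val ∧ agr 2 D (q.1 c) (q.2 c) = σ c).card =
      (Fintype.piFinset fun c => Finset.univ.filter
        fun t : Fin (2 ^ D) × Fin (2 ^ D) =>
        t.1.val < t.2.val ∧ agr 2 D t.1 t.2 = σ c).card := by
    refine Finset.card_bij (fun q _ => fun c => (q.1 c, q.2 c)) ?_ ?_ ?_
    · intro q hq
      simp only [Finset.mem_filter, Finset.mem_univ, true_and] at hq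
      simpa [Fintype.mem_piFinset] using hq
    · intro q _ q' _ he
      have := fun c => congrFun he c
      simp only [Prod.mk.injEq] at this
      exact Prod.ext (funext fun c => (this c).1) (funext fun c => (this c).2)
    · intro g hg
      refine ⟨(fun c => (g c).1, fun c => (g c).2), ?_, rfl⟩
      simp only [Fintype.mem_piFinset, Finset.mem_filter, Finset.mem_univ, true_and] at hg
      simpa using hg
  rw [h, Fintype.card_piFinset]
  have h3 : ∀ c, 4 * 2 ^ σ c * (Finset.univ.filter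
        fun t : Fin (2 ^ D) × Fin (2 ^ D) =>
        t.1.val < t.2.val ∧ agr 2 D t.1 t.2 = σ c).card = 2 ^ (2 * D) := by
    intro c
    obtain ⟨L, rfl⟩ : ∃ L, D = L + 1 := ⟨D - 1, by omega⟩
    rw [card_filter_fin2 (2 ^ (L + 1)) (fun t t' => t < t' ∧ agr 2 (L + 1) t t' = σ c)]
    have := h1 2 L (σ c) (by norm_num) (by have := hσD c; omega)
    have e : (2 : ℕ) ^ (2 * (L + 1)) = 2 * (2 ^ (2 * L + 1) * (2 - 1)) := by
      rw [show 2 * (L + 1) = (2 * L + 1) + 1 by ring, pow_succ]; ring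
    rw [e, ← this]; ring
  have h4 : ∏ c : Fin d, (4 * 2 ^ σ c * (Finset.univ.filter
        fun t : Fin (2 ^ D) × Fin (2 ^ D) =>
        t.1.val < t.2.val ∧ agr 2 D t.1 t.2 = σ c).card) = 2 ^ (2 * D * d) := by
    rw [Finset.prod_congr rfl fun c _ => h3 c]
    simp [pow_mul]
  rw [← h4, Finset.prod_mul_distrib, Finset.prod_mul_distrib, Finset.prod_pow_eq_pow_sum, hσ]
  simp

theorem thm : Pool.Agent.Helper71.SN.G_CNT1 → Pool.Agent.Helper71.SN.G_CNT2 →
    Pool.Agent.Helper39.SQ.G_EXPA := by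
  classical
  intro h1 h2 d D N hD σ hσD hσ i j hij
  set A : ℕ := (2 ^ (D * d) - 2 ^ (D * d - N)) ^ (2 ^ N - 2) with hA
  set Pr := Finset.univ.filter
      fun q : (Fin d → Fin (2 ^ D)) × (Fin d → Fin (2 ^ D)) =>
        ∀ c, (q.1 c).val < (q.2 c).val ∧ agr 2 D (q.1 c) (q.2 c) = σ c with hPr
  have key : ∀ (T : Finset (Mp d D N)), (∀ F, F ∈ T ↔
      ((∀ c, (F i c).val < (F j c).val ∧ agr 2 D (F i c) (F j c) = σ c) ∧
        ∀ k, k ≠ i → k ≠ j → ¬ ∀ c, σ c ≤ agr 2 D (F i c) (F k c))) →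
      T.card = Pr.card * A := by
    intro T hT
    rw [Finset.card_eq_sum_card_fiberwise (f := fun F : Mp d D N => (F i, F j)) (t := Pr)]
    · rw [Finset.sum_const_nat (m := A)]
      rintro ⟨s, s'⟩ hs
      simp only [hPr, Finset.mem_filter, Finset.mem_univ, true_and] at hs
      have e : (T.filter fun F => (F i, F j) = (s, s')) =
          Finset.univ.filter fun F : Mp d D N => (F i = s ∧ F j = s') ∧
            ∀ k, k ≠ i → k ≠ j → F k ∉ (Finset.univ.filter
              fun z : Fin d → Fin (2 ^ D) => ∀ c, σ c ≤ agr 2 D (s c) (z c)) := by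
        ext F
        simp only [Finset.mem_filter, Finset.mem_univ, true_and, hT, Prod.mk.injEq]
        constructor
        · rintro ⟨⟨_, a2⟩, a3, a4⟩
          refine ⟨⟨a3, a4⟩, ?_⟩
          rw [← a3]
          exact a2
        · rintro ⟨⟨a3, a4⟩, a5⟩
          refine ⟨⟨?_, ?_⟩, a3, a4⟩
          · rw [a3, a4]
            exact hs
          · rw [a3]
            exact a5
      rw [e, fiber_card i j hij, cell_card' h2 hσD hσ s]
      rw [hA]
      congr 2
      rw [Fintype.card_fun, Fintype.card_fin, Fintype.card_fin, ← pow_mul]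
    · intro F hF
      have := (hT F).1 hF
      simp only [hPr, Finset.coe_filter, Finset.mem_univ, true_and, Set.mem_ofPred_eq]
      exact this.1
  rw [key _ (fun F => by simp only [Finset.mem_filter, Finset.mem_univ, true_and])]
  rw [← mul_assoc, hPr, pairs_card' h1 hD hσD hσ]

end Pool.Agent.Helper40.SQ.EXPA
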