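import Pool.Agent.Helper84.SQ.GoalsD

/-!
# SQ-PTX: the complete algorithm for at most one concave variable is polynomial
-/

namespace Pool.Agent.Helper40.SQ

open Pool.Agent.Helper84.SQ
open Pool.Agent.Helper81.CC Pool.Agent.Bin
open Pool.Agent.Helper45.SQP (Inst TUInst Correct Code Output intCode)

section
variable {α : Type} [ToData α]

theorem pt_zof {f : α → Bool × List Bool} (hf : PolyTime f) : PolyTime (fun a => zof (f a)) := by
  unfold zof; fun_prop

theorem pt_unitR {d i : α → ℕ} {s : α → Zn} (hd : PolyTime d) (hi : PolyTime i)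
    (hs : PolyTime s) : PolyTime (fun a => unitR (d a) (i a) (s a)) := by
  unfold unitR Zn.zero
  fun_prop

theorem pt_boxR {d : α → ℕ} {b : α → List Zn × List Zn} (hd : PolyTime d) (hb : PolyTime b) :
    PolyTime (fun a => boxR (d a) (b a)) := by
  unfold boxR Zn.one Zn.zero
  refine PolyTime.append (PolyTime.list_map (by fun_prop) ?_)
    (PolyTime.list_map (by fun_prop) ?_)
  · exact PolyTime.pair (pt_unitR (by fun_prop) (by fun_prop) (by fun_prop)) (by fun_prop)
  · exact PolyTime.pair (pt_unitR (by fun_prop) (by fun_prop) (by fun_prop)) (by fun_prop)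

theorem pt_fixR {d i : α → ℕ} {t : α → Zn} (hd : PolyTime d) (hi : PolyTime i)
    (ht : PolyTime t) : PolyTime (fun a => fixR (d a) (i a) (t a)) := by
  unfold fixR Zn.one
  refine PolyTime.list_cons (PolyTime.pair (pt_unitR hd hi (by fun_prop)) ht)
    (PolyTime.list_cons (PolyTime.pair (pt_unitR hd hi (by fun_prop)) (by fun_prop)) (by fun_prop))

theorem pt_gv {G : α → List (Zn × Zn)} {x : α → List Zn} (hG : PolyTime G) (hx : PolyTime x) :
    PolyTime (fun a => gv (G a) (x a)) := by
  unfold gv; fun_prop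

theorem pt_rowsC : PolyTime rowsC := by
  unfold rowsC
  refine PolyTime.list_map (by fun_prop) (PolyTime.pair (PolyTime.list_map (by fun_prop) ?_) ?_)
  · exact pt_zof (by fun_prop)
  · exact pt_zof (by fun_prop)

theorem pt_gobC : PolyTime gobC := by
  unfold gobC Zn.zero
  exact PolyTime.list_map (by fun_prop) (PolyTime.pair (by fun_prop) (pt_zof (by fun_prop)))

theorem pt_fobC : PolyTime fobC := by
  unfold fobC
  exact PolyTime.list_map (by fun_prop) (PolyTime.pair (by fun_prop) (pt_zof (by fun_prop)))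

theorem pt_linC : PolyTime linC := by
  unfold linC
  exact PolyTime.list_map (by fun_prop) (PolyTime.pair (by fun_prop) (pt_zof (by fun_prop)))

theorem pt_linG : PolyTime linG := by
  unfold linG Zn.zero
  exact PolyTime.list_map (by fun_prop) (PolyTime.pair (by fun_prop) (pt_zof (by fun_prop)))

theorem pt_vinC : PolyTime vinC := by
  unfold vinC; fun_prop

theorem pt_szC : PolyTime szC := by
  unfold szC; fun_prop

end

section
variable {α : Type} [ToData α]

theorem pt_szC' {f : α → Code} (hf : PolyTime f) : PolyTime (fun a => szC (f a)) :=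
  PolyTime.comp pt_szC hf

theorem pt_eE {f : α → ℕ} (hf : PolyTime f) : PolyTime (fun a => eE (f a)) := by
  unfold eE; fun_prop

theorem pt_trcC : PolyTime trcC := by
  unfold trcC
  have h1 := pt_rowsC
  have h2 := pt_szC
  exact PolyTime.append h1 (pt_boxR (by fun_prop) (by fun_prop))

theorem pt_homC : PolyTime homC := by
  unfold homC Zn.zero Zn.one Zn.neg
  have h1 := pt_rowsC
  exact PolyTime.append (by fun_prop) (pt_boxR (by fun_prop) (by fun_prop))

theorem pt_slcC {f : α → Code} {v : α → ℕ} {t : α → Zn} (hf : PolyTime f) (hv : PolyTime v)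
    (ht : PolyTime t) : PolyTime (fun a => slcC (f a) (v a) (t a)) := by
  unfold slcC
  have h1 : PolyTime (fun a => rowsC (f a)) := PolyTime.comp pt_rowsC hf
  have h2 : PolyTime (fun a => eE (szC (f a))) := pt_eE (pt_szC' hf)
  exact PolyTime.append (PolyTime.append h1 (pt_boxR (by fun_prop) (by fun_prop)))
    (pt_fixR (by fun_prop) hv ht)

theorem pt_tstC (hb : PtbStmt) {f : α → Code} {v : α → ℕ} {t : α → Zn} (hf : PolyTime f)
    (hv : PolyTime v) (ht : PolyTime t) : PolyTime (fun a => tstC (f a) (v a) (t a)) := by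
  unfold tstC
  have h2 : PolyTime (fun a => eE (szC (f a))) := pt_eE (pt_szC' hf)
  have h3 : PolyTime (fun a => fobC (f a)) := PolyTime.comp pt_fobC hf
  have h4 := (hb α (fun a => 8 * eE (szC (f a)) + 2) (fun a => (f a).2.length) (fun _ => 0)
    (fun a => slcC (f a) (v a) (t a)) (fun a => fobC (f a)) (by fun_prop) (by fun_prop)
    (by fun_prop) (pt_slcC hf hv ht) h3).1
  refine PolyTime.option_getD (PolyTime.option_map h4 ?_) (by fun_prop)
  have h5 : PolyTime (fun z : α × List Zn => gv (gobC (f z.1)) z.2) :=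
    pt_gv (PolyTime.comp pt_gobC (by fun_prop)) (by fun_prop)
  have h6 : PolyTime (fun z : α × List Zn => eE (szC (f z.1))) := pt_eE (pt_szC' (by fun_prop))
  fun_prop

theorem pt_unb1 (hb : PtbStmt) : PolyTime unb1 := by
  unfold unb1
  have h2 := pt_szC
  have h3 := pt_linC
  have h4 := (hb Code (fun c => szC c + 2) (fun c => c.2.length) (fun _ => 0) homC linC
    (by fun_prop) (by fun_prop) (by fun_prop) pt_homC pt_linC).1
  refine PolyTime.option_getD (PolyTime.option_map h4 ?_) (by fun_prop)
  have h5 : PolyTime (fun z : Code × List Zn => gv (linG z.1) z.2) :=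
    pt_gv (PolyTime.comp pt_linG (by fun_prop)) (by fun_prop)
  unfold Zn.zero
  fun_prop

theorem pt_unb2 (hb : PtbStmt) : PolyTime unb2 := by
  unfold unb2
  have h6 : PolyTime (fun z : Code × ℕ => eE (szC z.1)) := pt_eE (pt_szC' (by fun_prop))
  refine PolyTime.any pt_vinC (PolyTime.or ?_ ?_)
  · exact pt_tstC hb (by fun_prop) (by fun_prop) (by fun_prop)
  · exact pt_tstC hb (by fun_prop) (by fun_prop) (by fun_prop)

theorem pt_alg (hc : PtcStmt) (p K : ℕ) : PolyTime (alg p K) := by
  unfold alg
  have h2 := pt_szC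
  exact (hc p K Code (fun c => szC c + 2) (fun c => c.2.length) (fun _ => 0) vinC trcC fobC gobC
    (by fun_prop) (by fun_prop) (by fun_prop) pt_vinC pt_trcC pt_fobC pt_gobC).2.2

theorem pt_alg1 (hb : PtbStmt) (hc : PtcStmt) (K : ℕ) : PolyTime (alg1 K) := by
  unfold alg1
  refine PolyTime.option_map (pt_alg hc 1 K) ?_
  have h1 : PolyTime (fun z : Code × List Zn => unb1 z.1) :=
    PolyTime.comp (pt_unb1 hb) (by fun_prop)
  have h2 : PolyTime (fun z : Code × List Zn => unb2 z.1) :=
    PolyTime.comp (pt_unb2 hb) (by fun_prop)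
  fun_prop

theorem pt_icode {f : α → Zn} (hf : PolyTime f) : PolyTime (fun a => icode (f a)) := by
  unfold icode; fun_prop

theorem pt_outC1 : PolyTime outC1 := by
  unfold outC1
  exact PolyTime.option_map (by fun_prop) (PolyTime.option_map (by fun_prop)
    (PolyTime.list_map (by fun_prop) (pt_icode (by fun_prop))))

end

theorem icode_eq (z : Zn) : icode z = intCode (Zn.val z) := by
  have h1 : z.1 < z.2 ↔ Zn.val z < 0 := by
    unfold Zn.val
    rw [BN.lt_def]
    omega
  have h2 : (z.1 - z.2 + (z.2 - z.1)).val = (Zn.val z).natAbs := by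
    unfold Zn.val
    simp only [BN.val_add, BN.val_sub]
    omega
  refine Prod.ext (decide_eq_decide.2 h1) ?_
  change Nat.bits (z.1 - z.2 + (z.2 - z.1)).val = Nat.bits (Zn.val z).natAbs
  rw [h2]

theorem out1_code (o : Option (Option (List Zn))) : (out1 o).code = outC1 o := by
  have h : icode = fun z => intCode (Zn.val z) := funext icode_eq
  rcases o with _ | _ | l
  · rfl
  · rfl
  · simp only [out1, Output.code, outC1, Option.map_some, List.map_map, h]
    rfl

theorem ptx (hb : PtbStmt) (hc : PtcStmt) : PtxStmt := by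
  intro p K
  apply SComp.computable
  obtain ⟨q, Q, h⟩ := (PolyTime.comp pt_outC1 (pt_alg1 hb hc K)).scomp
  refine ⟨q, Q, fun I => ?_⟩
  have e : Output.enc (out1 (alg1 K I.1.code)) =
      encOf (Option (Option (List (Bool × List Bool)))) (outC1 (alg1 K I.1.code)) := by
    rw [Output.enc, out1_code]
  rw [e]
  exact h I.1.code

end Pool.Agent.Helper40.SQ
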