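import Pool.Agent.Helper84.SQ.GoalsB

/-!
# SQ-SPL: the slices of one variable
-/

namespace Pool.Agent.Helper40.SQ

open Pool.Agent.Helper84.SQ
open Pool.Agent.Helper81.CC Pool.Agent.Bin

theorem sol_eq_fea (d : ℕ) (R : List Row) :
    Sol d R = Fea (MR d R) (fun i => Zn.val (R.get i).2) := by
  ext x
  simp only [Sol, Fea, MR, Set.mem_ofPred_eq]
  constructor
  · intro h i
    exact h (R.get i) (List.get_mem R i)
  · intro h r hr
    obtain ⟨i, rfl⟩ := List.get_of_mem hr
    exact h i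

theorem val_grdv (K k : ℕ) (l u : Zn) (h : Zn.val l ≤ Zn.val u) :
    Zn.val (grdv K k l u) = Zn.val l + (k : ℤ) * (Zn.val u - Zn.val l) / (K : ℤ) := by
  unfold grdv
  rw [Zn.val_add, Zn.val_bn]
  congr 1
  have h1 : u.2.val + l.1.val ≤ u.1.val + l.2.val := by
    have := h
    simp only [Zn.val] at this
    omega
  simp only [BN.val_div, BN.val_mul, BN.val_sub, BN.val_add, BN.val_ofNat]
  rw [Int.natCast_div, Nat.cast_mul, Nat.cast_sub h1]
  congr 2
  simp only [Zn.val]
  push_cast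
  ring

theorem mem_split {N d K i : ℕ} {R R' : List Row} (h : R' ∈ split N d K i R) :
    ∃ t : Zn, R' = R ++ fixR d i t := by
  unfold split at h
  cases h1 : cmin N d R i with
  | none => simp [h1] at h
  | some l =>
    cases h2 : cmax N d R i with
    | none => simp [h1, h2] at h
    | some u =>
      simp only [h1, h2, Option.bind_some, Option.map_some, Option.getD_some,
        List.mem_map] at h
      obtain ⟨k, -, rfl⟩ := h
      exact ⟨_, rfl⟩

theorem spl (hslv : SlvStmt) (hbxo : BxoStmt) (hgrd : GrdStmt) : SplStmt := by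
  intro N d K i R F hok hi hK
  obtain ⟨-, hfix⟩ := hbxo N d R F hok
  constructor
  · intro R' hR'
    obtain ⟨t, rfl⟩ := mem_split hR'
    obtain ⟨⟨hok', hsol⟩, -⟩ := hfix i t hi
    refine ⟨hok', fun x hx => ((hsol x).1 hx).1, Zn.val t, fun x hx => ((hsol x).1 hx).2⟩
  · intro κ h Rg hRg a ha
    obtain ⟨ok1, fv1⟩ := (hfix i Zn.one hi).2 (by simp)
    obtain ⟨ok2, fv2⟩ := (hfix i (Zn.neg Zn.one) hi).2 (by simp)
    obtain ⟨n1, s1⟩ := hslv N d R _ ok1
    obtain ⟨n2, s2⟩ := hslv N d R _ ok2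
    cases e1 : solve N d R (eobj d i Zn.one) with
    | none => exact absurd ha (by rw [n1 e1]; simp)
    | some x1 =>
    cases e2 : solve N d R (eobj d i (Zn.neg Zn.one)) with
    | none => exact absurd ha (by rw [n2 e2]; simp)
    | some x2 =>
    obtain ⟨-, m1, b1⟩ := s1 x1 e1
    obtain ⟨-, m2, b2⟩ := s2 x2 e2
    have c1 : cmin N d R i = some (x1.getD i Zn.zero) := by simp [cmin, e1]
    have c2 : cmax N d R i = some (x2.getD i Zn.zero) := by simp [cmax, e2]
    set l : Zn := x1.getD i Zn.zero with hl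
    set u : Zn := x2.getD i Zn.zero with hu
    have l1 : lz d x1 ⟨i, hi⟩ = Zn.val l := rfl
    have l2 : lz d x2 ⟨i, hi⟩ = Zn.val u := rfl
    have lo : ∀ y ∈ Sol d R, Zn.val l ≤ y ⟨i, hi⟩ := by
      intro y hy
      have := b1 y hy
      rw [fv1, fv1, l1] at this
      simpa using this
    have up : ∀ y ∈ Sol d R, y ⟨i, hi⟩ ≤ Zn.val u := by
      intro y hy
      have := b2 y hy
      rw [fv2, fv2, l2] at this
      simpa using this
    have hlu : Zn.val l ≤ Zn.val u := (lo a ha).trans (up a ha)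
    have hS := sol_eq_fea d R
    obtain ⟨k, hk, a', ha', e, hle⟩ := hgrd R.length d K (MR d R) (fun i => Zn.val (R.get i).2)
      ⟨i, hi⟩ κ h Rg (Zn.val l) (Zn.val u) hok.tu hK ⟨_, hS ▸ m1, l1⟩ ⟨_, hS ▸ m2, l2⟩
      (fun x hx => ⟨lo x (hS ▸ hx), up x (hS ▸ hx)⟩)
      (fun x hx y hy => hRg x (hS ▸ hx) y (hS ▸ hy)) a (hS ▸ ha)
    refine ⟨R ++ fixR d i (grdv K k l u), ?_, a', ?_, hle⟩
    · unfold split
      simp only [c1, c2, Option.bind_some, Option.map_some, Option.getD_some, List.mem_map]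
      exact ⟨k, List.mem_range.2 (by omega), rfl⟩
    · obtain ⟨⟨-, hsol⟩, -⟩ := hfix i (grdv K k l u) hi
      rw [hsol]
      refine ⟨hS ▸ ha', ?_⟩
      rw [e, val_grdv K k l u hlu]

end Pool.Agent.Helper40.SQ
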