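import Pool.Agent.Helper40.SQU.TC

/-!
# Project SQ (MP_bb32d1_al), packet TFE
-/

set_option autoImplicit false

namespace Pool.Agent.Helper40.SQ

open Pool.Agent.Helper19.SQ Pool.Agent.Helper40.SQU Pool.Agent.Helper28.SQ

theorem s_tfe (hPBWS : S_PBWS) (hLM : S_LM) (hRM : S_RM) (hSPAN : S_SPAN) (hMONW : S_MONW)
    (hHTOP : S_HTOP) : S_TFE := by
  intro N l _ q hpar t hT k x
  have hl : 0 < l := by have := hpar.h3; omega
  have hl2 : 2 ≤ l := by have := hpar.h3; omega
  obtain ⟨hq, hq1, hq2⟩ := Pool.Agent.Helper96.SQ.ZB.par_facts hpar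
  by_cases hk : k < N
  swap
  · rw [(glA N l q).E_out k (by omega), zero_mul, mul_zero]
  refine pbw_ind hPBWS hpar (P := fun x => t (gE N l q k * x) = t (x * gE N l q k))
    (by simp) (fun x y hx hy => by rw [mul_add, add_mul, map_add, map_add, hx, hy])
    (fun c x hx => by rw [mul_smul_comm, smul_mul_assoc, map_smul, map_smul, hx])
    (fun a b κ ha hb => ?_) x
  have sa := supp_of_ex ha
  have sb := supp_of_ex hb
  classical
  -- right side
  have hR : t (mon N q (gF N l q) a * kmon N (gK N l q) κ * mon N q (gE N l q) b * gE N l q k)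
      = if a = topE N l ∧ (∀ j, j ≤ N → l ∣ κ j) ∧ inc b k (k + 1) = topE N l then 1 else 0 := by
    rw [mul_assoc _ _ (gE N l q k), hRM (A N l q) N q (gE N l q) hq hq1 hq2 (glA N l q).sE b k hk,
      mul_add, Finset.mul_sum, map_add, map_sum, Finset.sum_eq_zero, zero_add, mul_smul_comm,
      map_smul, t_mon hl hT a _ sa (sb.inc (by omega) (by omega))]
    · by_cases h : a = topE N l ∧ (∀ j, j ≤ N → l ∣ κ j) ∧ inc b k (k + 1) = topE N l
      · rw [if_pos h, wR_one b k hk h.2.2, one_smul]
      · rw [if_neg h, smul_zero]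
    · intro j hj
      obtain ⟨hj1, hj2⟩ := Finset.mem_Ioc.1 hj
      rw [mul_smul_comm, map_smul, t_mon hl hT a _ sa (supp_mvc sb hj1 hj2), if_neg, smul_zero]
      rintro ⟨_, _, h⟩
      exact mvc_ne hl2 b hb k j hj1 hj2 h
  -- left side
  have hE := kp_smul (gE N l q k) (gK N l q) (fun j => (q ^ pr j k)⁻¹) (fun j => E_K hq k j)
    (N + 1) κ
  have hlow := t_low_left hSPAN hpar hT k hk (ht N a) (hHTOP N l a ha).1 _
    (E_monF hMONW k a sa) κ b hb
  have hL : t (gE N l q k * (mon N q (gF N l q) a * kmon N (gK N l q) κ * mon N q (gE N l q) b))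
      = if a = topE N l ∧ (∀ j, j ≤ N → l ∣ κ j) ∧ inc b k (k + 1) = topE N l then 1 else 0 := by
    have e : gE N l q k * (mon N q (gF N l q) a * kmon N (gK N l q) κ * mon N q (gE N l q) b)
        = (gE N l q k * mon N q (gF N l q) a - mon N q (gF N l q) a * gE N l q k)
            * kmon N (gK N l q) κ * mon N q (gE N l q) b
          + mon N q (gF N l q) a * (gE N l q k * kmon N (gK N l q) κ) * mon N q (gE N l q) b := by
      noncomm_ring
    rw [e, map_add, hlow, zero_add, kmon_eq, hE, mul_smul_comm, smul_mul_assoc, map_smul,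
      ← kmon_eq]
    have e2 : mon N q (gF N l q) a * (kmon N (gK N l q) κ * gE N l q k) * mon N q (gE N l q) b
        = mon N q (gF N l q) a * kmon N (gK N l q) κ * (gE N l q k * mon N q (gE N l q) b) := by
      noncomm_ring
    rw [e2, hLM (A N l q) N q (gE N l q) hq hq1 hq2 (glA N l q).sE b k hk,
      mul_add, Finset.mul_sum, map_add, map_sum, Finset.sum_eq_zero, zero_add, mul_smul_comm,
      map_smul, t_mon hl hT a _ sa (sb.inc (by omega) (by omega))]
    · by_cases h : a = topE N l ∧ (∀ j, j ≤ N → l ∣ κ j) ∧ inc b k (k + 1) = topE N l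
      · rw [if_pos h, wL_one b k hk h.2.2, one_smul, scal_one _ _ κ h.2.1, one_smul]
        intro j
        rw [inv_pow, ← zpow_natCast, ← zpow_mul, mul_comm, zpow_mul, zpow_natCast,
          hpar.prim.pow_eq_one, one_zpow, inv_one]
      · rw [if_neg h, smul_zero, smul_zero]
    · intro i hi
      have hi' := Finset.mem_range.1 hi
      rw [mul_smul_comm, map_smul, t_mon hl hT a _ sa (sb.mvr hi' hk), if_neg, smul_zero]
      rintro ⟨_, _, h⟩
      exact mvr_ne hl2 b hb i k hi' hk h
  rw [hL, hR]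

end Pool.Agent.Helper40.SQ
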